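import Pool.Agent.Z125.UN.Sym
import Pool.Agent.Y116.UV.Graph

/-!
# Motivic homology with compact support, weight homology and their comparison, formally
-/

set_option autoImplicit false

open CategoryTheory CategoryTheory.Limits AlgebraicGeometry MvPolynomial
open Pool.Agent.Y116.UV Pool.Agent.Z125.UN

namespace Pool.Agent.R904.PM

/-- a homomorphism of groups `r : M → V` -/
structure Obj where
  M : Type
  V : Type
  [gM : AddCommGroup M]
  [gV : AddCommGroup V]
  r : M →+ V

attribute [instance] Obj.gM Obj.gV

/-- `r` is an isomorphism -/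
def Obj.Good (A : Obj) : Prop := Function.Bijective A.r

/-- commutative squares -/
structure Obj.Hom (A B : Obj) where
  m : A.M →+ B.M
  v : A.V →+ B.V
  comm : ∀ x, B.r (m x) = v (A.r x)

/-- exactness of both sequences -/
def Obj.Exact {A B C : Obj} (f : A.Hom B) (g : B.Hom C) : Prop :=
  Function.Exact f.m g.m ∧ Function.Exact f.v g.v

/-- `A` is a direct summand of `B` -/
def Obj.IsRetract (A B : Obj) : Prop :=
  ∃ (s : A.Hom B) (p : B.Hom A), (∀ x, p.m (s.m x) = x) ∧ ∀ x, p.v (s.v x) = x

/-- isomorphic objects -/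
def Obj.IsIso (A B : Obj) : Prop :=
  ∃ (s : A.Hom B) (p : B.Hom A), ((∀ x, p.m (s.m x) = x) ∧ ∀ x, p.v (s.v x) = x) ∧
    (∀ x, s.m (p.m x) = x) ∧ ∀ x, s.v (p.v x) = x

/-- the long exact sequence `H_i(Z) → H_i(X) → H_i(U) → H_{i-1}(Z) → …` of both theories, compatible
with the comparison -/
def LocSeq (Z X U : ℤ → Obj) : Prop :=
  ∃ (a : ∀ i, (Z i).Hom (X i)) (b : ∀ i, (X i).Hom (U i)) (d : ∀ i, (U (i + 1)).Hom (Z i)),
    (∀ i, Obj.Exact (a i) (b i)) ∧ (∀ i, Obj.Exact (b (i + 1)) (d i)) ∧
    ∀ i, Obj.Exact (d i) (a i)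

/-- `j` is an open immersion onto the complement of `f = 0` -/
def IsCompl {k : Type} [Field k] {A : Type} [CommRing A] [Algebra k A] {m : ℕ} (f : Fin m → A)
    {U : Sch k} (j : U ⟶ aff k A) : Prop :=
  IsOpenImmersion j.left ∧ Set.range j.left = {x : PrimeSpectrum A | ∃ l, f l ∉ x.asIdeal}

/-- the affine bundle `Spec A[w] / (∑ f_l w_l - 1)` over the complement of `f = 0` (Jouanolou) -/
noncomputable abbrev jouS (k : Type) [Field k] {A : Type} [CommRing A] [Algebra k A] {m : ℕ}
    (f : Fin m → A) : Sch k := aff k (Jou f)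

/-- the scheme `Spec A × 𝔾_m` -/
noncomputable abbrev laurS (k A : Type) [Field k] [CommRing A] [Algebra k A] : Sch k :=
  aff k (LaurentPolynomial A)

attribute [local instance] MvPolynomial.gradedAlgebra

/-- projective `(n-1)`-space over `k` -/
noncomputable abbrev PSpace (k : Type) [Field k] (n : ℕ) : Scheme.{0} :=
  Proj (homogeneousSubmodule (Fin n) k)

/-- the constants in the homogeneous coordinate ring, as a ring -/
noncomputable abbrev PSpace.zero (k : Type) [Field k] (n : ℕ) : CommRingCat.{0} :=
  CommRingCat.of (homogeneousSubmodule (Fin n) k 0)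

/-- the inclusion of `k` in the constants -/
noncomputable def PSpace.const (k : Type) [Field k] (n : ℕ) : CommRingCat.of k ⟶ PSpace.zero k n :=
  CommRingCat.ofHom (algebraMap k (homogeneousSubmodule (Fin n) k 0))

/-- the map to the spectrum of the constants -/
noncomputable def PSpace.toZero (k : Type) [Field k] (n : ℕ) : PSpace k n ⟶ Spec (PSpace.zero k n) :=
  Proj.toSpecZero (homogeneousSubmodule (Fin n) k)

/-- its structure morphism -/
noncomputable def PSpace.str (k : Type) [Field k] (n : ℕ) :
    PSpace k n ⟶ Spec (CommRingCat.of k) :=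
  PSpace.toZero k n ≫ Spec.map (PSpace.const k n)

/-- smooth projective schemes over `k` -/
def SmoothProjective {k : Type} [Field k] (X : Sch k) : Prop :=
  Smooth X.hom ∧ ∃ (n : ℕ) (i : X.left ⟶ PSpace k n), IsClosedImmersion i ∧
    i ≫ PSpace.str k n = X.hom

/-- De Jong's theorem on alterations: for a scheme `X` of dimension at most `n` there are a dense open
subscheme `V ⊆ X` and a dense open subscheme `U` of a smooth projective scheme `Y` of dimension at most
`n`, whose closed complements `Z` and `Z'` have smaller dimension, and a finite flat morphism `U → V`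
of constant degree on each component; so the homology of `V` is a direct summand of the one of `U`. -/
def Alteration {k : Type} [Field k] (obj : ℤ → ℤ → Sch k → Obj) (n : ℕ) (X : Sch k) : Prop :=
  ∃ (Z V Y Z' U : Sch k) (i : Z ⟶ X) (j : V ⟶ X) (i' : Z' ⟶ Y) (j' : U ⟶ Y),
    IsTriple i j ∧ IsTriple i' j' ∧ FT True Y ∧ SmoothProjective Y ∧
    topologicalKrullDim Y.left ≤ n ∧ (FT True Z ∧ topologicalKrullDim Z.left < n) ∧
    (FT True Z' ∧ topologicalKrullDim Z'.left < n) ∧
    ∀ i m : ℤ, (obj i m V).IsRetract (obj i m U)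

/-- The standard properties of the comparison of the motivic homology with compact support
`H_i^c(X, ℚ(m))` and the weight homology `H_{i-2m}(CH_m(W(X)) ⊗ ℚ)`, `W(X)` the weight complex of
Gillet and Soulé, for separated schemes `X` of finite type over the finite field `k`. -/
structure Theory (k : Type) [Field k] where
  /-- the comparison map for `X` in degree `i` and weight `m` -/
  obj : ℤ → ℤ → Sch k → Obj
  /-- isomorphic schemes -/
  iso : ∀ (i m : ℤ) {X Y : Sch k}, FT True X → Nonempty (X ≅ Y) → (obj i m X).IsIso (obj i m Y)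
  /-- the empty scheme has no homology -/
  empty : ∀ (i m : ℤ) (X : Sch k), IsEmpty X.left → (obj i m X).Good
  /-- localization -/
  localization : ∀ (m : ℤ) {Z X U : Sch k} (i : Z ⟶ X) (j : U ⟶ X), FT True X → IsTriple i j →
    LocSeq (fun n => obj n m Z) (fun n => obj n m X) (fun n => obj n m U)
  /-- homotopy invariance for the affine bundles of Jouanolou, with fibre `𝔸^(r-1)` -/
  bundle : ∀ (i m : ℤ) (A : Type) [CommRing A] [Algebra k A] [Algebra.FiniteType k A] (r : ℕ)
    (f : Fin r → A) (U : Sch k) (t : U ⟶ aff k A), IsCompl f t →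
    (obj i m U).IsIso (obj (i + 2 * (r - 1 : ℕ)) (m + (r - 1 : ℕ)) (jouS k f))
  /-- the homology of `X` is a direct summand of the one of `X × 𝔾_m` -/
  torus : ∀ (i m : ℤ) (A : Type) [CommRing A] [Algebra k A] [Algebra.FiniteType k A],
    (obj i m (aff k A)).IsRetract (obj (i + 2) (m + 1) (laurS k A))
  /-- the weight complex of a smooth projective scheme is concentrated in degree zero -/
  pure : ∀ X : Sch k, FT True X → SmoothProjective X → ∀ i m : ℤ, i ≠ 2 * m →
    ∀ y : (obj i m X).V, y = 0
  /-- for smooth projective schemes both theories give the Chow groups in degree `2m` -/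
  chow : ∀ X : Sch k, FT True X → SmoothProjective X → ∀ m : ℤ, (obj (2 * m) m X).Good
  /-- the point (Quillen) -/
  point : ∀ i m : ℤ, (obj i m (aff k k)).Good
  /-- the theorem on alterations -/
  alteration : ∀ (n : ℕ) (X : Sch k), FT True X → topologicalKrullDim X.left ≤ n →
    Alteration obj n X
  /-- Parshin's conjecture in dimension at most one (Quillen, Harder) -/
  curves : ∀ X : Sch k, FT True X → SmoothProjective X → topologicalKrullDim X.left ≤ 1 →
    ∀ i m : ℤ, i ≠ 2 * m → ∀ x : (obj i m X).M, x = 0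

/-- the comparison of motivic homology and weight homology of `X` is an isomorphism in all degrees and
weights -/
def Theory.Comparison {k : Type} [Field k] (H : Theory k) (X : Sch k) : Prop :=
  ∀ i m : ℤ, (H.obj i m X).Good

/-- the statement `P_m`: `H_i^c(X, ℚ(m)) = 0` for all smooth projective `X` and `i ≠ 2m` -/
def Theory.P {k : Type} [Field k] (H : Theory k) (m : ℤ) : Prop :=
  ∀ X : Sch k, FT True X → SmoothProjective X → ∀ i : ℤ, i ≠ 2 * m → ∀ x : (H.obj i m X).M, x = 0

/-- the statement `P_m(d)` -/
def Theory.PDim {k : Type} [Field k] (H : Theory k) (m : ℤ) (d : ℕ) : Prop :=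
  ∀ X : Sch k, FT True X → SmoothProjective X → topologicalKrullDim X.left ≤ d →
    ∀ i : ℤ, i ≠ 2 * m → ∀ x : (H.obj i m X).M, x = 0

/-- the comparison for the hypersurfaces `T(x, y, z) = 1`, for all trilinear forms `T` over `k` such that
one of the three blocks of variables has at most `b` variables -/
def Theory.Block {k : Type} [Field k] (H : Theory k) (b : ℕ) : Prop :=
  ∀ (a₁ a₂ a₃ : ℕ) (T : Fin a₁ → Fin a₂ → Fin a₃ → k), (a₁ ≤ b ∨ a₂ ≤ b ∨ a₃ ≤ b) →
    H.Comparison (hypS T)

end Pool.Agent.R904.PM
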