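import Pool.Agent.R904.PM.Defs

/-!
# Parshin's conjecture, weight homology and trilinear forms
-/

set_option autoImplicit false

open CategoryTheory CategoryTheory.Limits AlgebraicGeometry MvPolynomial
open Pool.Agent.Y116.UV Pool.Agent.Z125.UN

namespace Pool.Agent.R904.PM

section

variable {A B C D E : Obj}

/-- the five lemma -/
theorem five (f : A.Hom B) (g : B.Hom C) (h : C.Hom D) (k : D.Hom E) (e1 : Obj.Exact f g)
    (e2 : Obj.Exact g h) (e3 : Obj.Exact h k) (hA : A.Good) (hB : B.Good) (hD : D.Good)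
    (hE : E.Good) : C.Good := by
  constructor
  · rw [injective_iff_map_eq_zero]
    intro c hc
    have h1 : h.m c = 0 := by
      apply hD.1
      rw [h.comm, hc, map_zero, map_zero]
    obtain ⟨b, rfl⟩ := (e2.1 c).1 h1
    rw [g.comm] at hc
    obtain ⟨a, hab⟩ := (e1.2 _).1 hc
    obtain ⟨a', rfl⟩ := hA.2 a
    have h2 : f.m a' = b := by
      apply hB.1
      rw [f.comm, hab]
    rw [← h2]
    exact (e1.1 _).2 ⟨a', rfl⟩
  · intro v
    obtain ⟨d, hd⟩ := hD.2 (h.v v)
    have h1 : k.m d = 0 := by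
      apply hE.1
      rw [k.comm, hd, map_zero]
      exact (e3.2 _).2 ⟨v, rfl⟩
    obtain ⟨c, rfl⟩ := (e3.1 d).1 h1
    have h2 : h.v (v - C.r c) = 0 := by
      rw [map_sub, ← hd, h.comm, sub_self]
    obtain ⟨b, hbv⟩ := (e2.2 _).1 h2
    obtain ⟨b', rfl⟩ := hB.2 b
    refine ⟨g.m b' + c, ?_⟩
    rw [map_add, g.comm, hbv, sub_add_cancel]

theorem good_retract (h : A.IsRetract B) (hB : B.Good) : A.Good := by
  obtain ⟨s, p, h1, h2⟩ := h
  refine ⟨?_, ?_⟩
  · intro x y hxy
    have h3 : s.m x = s.m y := by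
      apply hB.1
      rw [s.comm, s.comm, hxy]
    rw [← h1 x, ← h1 y, h3]
  · intro v
    obtain ⟨x, hx⟩ := hB.2 (s.v v)
    refine ⟨p.m x, ?_⟩
    rw [p.comm, hx, h2]

theorem Obj.IsIso.good_iff (h : A.IsIso B) : A.Good ↔ B.Good := by
  obtain ⟨s, p, h1, h2⟩ := h
  exact ⟨good_retract ⟨p, s, h2⟩, good_retract ⟨s, p, h1⟩⟩

end

variable {k : Type} [Field k] (H : Theory k)

/-- smooth projective schemes -/
theorem good_of_proj {X : Sch k} (h1 : FT True X) (h2 : SmoothProjective X)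
    (h3 : ∀ i m : ℤ, i ≠ 2 * m → ∀ x : (H.obj i m X).M, x = 0) : H.Comparison X := by
  intro i m
  by_cases h : i = 2 * m
  · subst h
    exact H.chow X h1 h2 m
  · refine ⟨fun x y _ => ?_, fun y => ⟨0, ?_⟩⟩
    · rw [h3 i m h x, h3 i m h y]
    · rw [map_zero, H.pure X h1 h2 i m h y]

/-- two out of three -/
theorem cmp_total {Z X U : Sch k} (u : Z ⟶ X) (v : U ⟶ X) (h : FT True X) (ht : IsTriple u v)
    (hZ : H.Comparison Z) (hU : H.Comparison U) : H.Comparison X := by
  intro i j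
  obtain ⟨a, b, d, h1, h2, h3⟩ := H.localization j u v h ht
  obtain ⟨n, rfl⟩ : ∃ n : ℤ, i = n + 1 := ⟨i - 1, by ring⟩
  exact five (d (n + 1)) (a (n + 1)) (b (n + 1)) (d n) (h3 (n + 1)) (h1 (n + 1)) (h2 n)
    (hU (n + 1 + 1) j) (hZ (n + 1) j) (hU (n + 1) j) (hZ n j)

theorem cmp_opened {Z X U : Sch k} (u : Z ⟶ X) (v : U ⟶ X) (h : FT True X) (ht : IsTriple u v)
    (hZ : H.Comparison Z) (hX : H.Comparison X) : H.Comparison U := by
  intro i j
  obtain ⟨a, b, d, h1, h2, h3⟩ := H.localization j u v h ht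
  obtain ⟨n, rfl⟩ : ∃ n : ℤ, i = n + 1 := ⟨i - 1, by ring⟩
  exact five (a (n + 1)) (b (n + 1)) (d n) (a n) (h1 (n + 1)) (h2 n) (h3 n)
    (hZ (n + 1) j) (hX (n + 1) j) (hZ n j) (hX n j)

theorem cmp_closed {Z X U : Sch k} (u : Z ⟶ X) (v : U ⟶ X) (h : FT True X) (ht : IsTriple u v)
    (hX : H.Comparison X) (hU : H.Comparison U) : H.Comparison Z := by
  intro i j
  obtain ⟨a, b, d, h1, h2, h3⟩ := H.localization j u v h ht
  exact five (b (i + 1)) (d i) (a i) (b i) (h2 i) (h3 i) (h1 i) (hX (i + 1) j) (hU (i + 1) j)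
    (hX i j) (hU i j)

theorem isEmpty_of_dim {X : Sch k} (h : topologicalKrullDim X.left < ((0 : ℕ) : WithBot ℕ∞)) :
    IsEmpty X.left := by
  by_contra hne
  rw [not_isEmpty_iff] at hne
  obtain ⟨x⟩ := hne
  haveI : Nonempty (TopologicalSpace.IrreducibleCloseds X.left) :=
    ⟨⟨closure {x}, isIrreducible_singleton.closure, isClosed_closure⟩⟩
  have h1 : (0 : WithBot ℕ∞) ≤ topologicalKrullDim X.left := Order.krullDim_nonneg
  exact absurd (lt_of_le_of_lt h1 (by simpa using h)) (lt_irrefl _)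

theorem le_of_lt_succ {x : WithBot ℕ∞} {n : ℕ} (h : x < ((n + 1 : ℕ) : WithBot ℕ∞)) :
    x ≤ (n : WithBot ℕ∞) := by
  induction x using WithBot.recBotCoe with
  | bot => exact bot_le
  | coe x =>
    have h1 : x < ((n + 1 : ℕ) : ℕ∞) := WithBot.coe_lt_coe.1 h
    have h2 : x ≤ (n : ℕ∞) := by
      rw [Nat.cast_add, Nat.cast_one] at h1
      exact Order.le_of_lt_add_one h1
    exact WithBot.coe_le_coe.2 h2

/-- from smooth projective schemes to all schemes -/
theorem of_proj (d : ℕ) (hP : ∀ X : Sch k, FT True X → SmoothProjective X →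
    topologicalKrullDim X.left ≤ d → H.Comparison X) :
    ∀ n : ℕ, n ≤ d → ∀ X : Sch k, FT True X → topologicalKrullDim X.left ≤ n → H.Comparison X := by
  intro n
  induction n using Nat.strong_induction_on with
  | _ n ih =>
    intro hn X hX hd
    obtain ⟨Z, V, Y, Z', U, i, j, i', j', t1, t2, hY, hY', hYd, ⟨hZ, hZd⟩, ⟨hZ', hZd'⟩, hr⟩ :=
      H.alteration n X hX hd
    have key : ∀ W : Sch k, FT True W → topologicalKrullDim W.left < n → H.Comparison W := by
      intro W hW hlt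
      rcases n with _ | n
      · intro i m
        exact H.empty i m W (isEmpty_of_dim hlt)
      · exact ih n (by omega) (by omega) W hW (le_of_lt_succ hlt)
    have h1 : H.Comparison U := cmp_opened H i' j' hY t2 (key Z' hZ' hZd')
      (hP Y hY hY' (hYd.trans (by exact_mod_cast hn)))
    exact cmp_total H i j hX t1 (key Z hZ hZd) (fun i m => good_retract (hr i m) (h1 i m))

theorem comparison_of_P (d : ℕ) (h : ∀ m, H.PDim m d) (X : Sch k) (hX : FT True X)
    (hd : topologicalKrullDim X.left ≤ d) : H.Comparison X :=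
  of_proj H d (fun Y h1 h2 h3 => good_of_proj H h1 h2 fun i m => h m Y h1 h2 h3 i) d le_rfl X hX hd

theorem P_of_comparison (d : ℕ) (h : ∀ X : Sch k, FT True X → Smooth X.hom →
    topologicalKrullDim X.left ≤ d → H.Comparison X) (m : ℤ) : H.PDim m d := by
  intro X h1 h2 h3 i hi x
  apply (h X h1 h2.1 h3 i m).1
  rw [H.pure X h1 h2 i m hi (H.obj i m X |>.r x), map_zero]

theorem cmp_space (n : ℕ) : H.Comparison (aff k (MvPolynomial (Fin n) k)) := by
  have h2 : H.Comparison (aff k (Jou (f1 k n))) := by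
    intro i j
    have h3 := H.bundle (i - 2 * ((n + 1 - 1 : ℕ) : ℤ)) (j - ((n + 1 - 1 : ℕ) : ℤ)) k (n + 1)
      (f1 k n) (aff k k) (𝟙 _) ⟨inferInstance, range_id n⟩
    rw [sub_add_cancel, sub_add_cancel] at h3
    exact h3.good_iff.1 (H.point _ _)
  intro i j
  exact (H.iso i j (ft_aff True) ⟨(affIso (jouOne k n)).symm⟩).good_iff.1 (h2 i j)

/-- `Comparison` has the closure properties `Bnd`. -/
theorem bnd : Bnd True fun X : Sch k => H.Comparison X where
  iso h e hX i j := (H.iso i j h e).good_iff.1 (hX i j)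
  total u v h ht hZ hU := cmp_total H u v h ht hZ hU
  opened u v h ht hZ hX := cmp_opened H u v h ht hZ hX
  closed u v h ht hX hU := cmp_closed H u v h ht hX hU
  space := cmp_space H
  jouanolou A _ _ _ m f U t hj hr h i j :=
    (H.bundle i j A m f U t ⟨hj, hr⟩).good_iff.2 (h _ _)
  torus A _ _ _ h i j := good_retract (H.torus i j A) (h _ _)
  bundle A _ _ _ m f U t hj hr h := by
    intro i j
    have h3 := H.bundle (i - 2 * ((m - 1 : ℕ) : ℤ)) (j - ((m - 1 : ℕ) : ℤ)) A m f U t ⟨hj, hr⟩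
    rw [sub_add_cancel, sub_add_cancel] at h3
    exact h3.good_iff.1 (h _ _)

/-- all separated schemes of finite type and trilinear forms -/
theorem all_iff : (∀ X : Sch k, FT True X → H.Comparison X) ↔
    ∀ (a b c : ℕ) (T : Fin a → Fin b → Fin c → k), H.Comparison (hypS T) :=
  ⟨fun h _ _ _ _ => h _ (ft_aff True), fun h X hX => universal (bnd H).toUni
    (Set.mem_univ (0 : k)) (Set.mem_univ 1) (fun a b c T _ => h a b c T) presents_univ X hX⟩

/-- schemes of dimension at most `d`, smooth projective schemes and trilinear forms -/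
theorem dim_iff [PerfectField k] (d : ℕ) : ((∀ m, H.PDim m d) ↔ H.Block (d + 2)) ∧
    ((∀ m, H.PDim m d) ↔
      ∀ X : Sch k, FT True X → topologicalKrullDim X.left ≤ d → H.Comparison X) := by
  have hB := bnd H
  have hs : (∀ m, H.PDim m d) →
      ∀ X : Sch k, FT True X → topologicalKrullDim X.left ≤ d → H.Comparison X :=
    fun h X hX hd => comparison_of_P H d h X hX hd
  refine ⟨⟨fun h a b c T hm => ?_, fun h => P_of_comparison H d fun X hX _ hn => ?_⟩, hs,
    fun h => P_of_comparison H d fun X hX _ hn => h X hX hn⟩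
  · have h2 : ∀ I : Ideal (MvPolynomial (Fin (d + 1)) k),
        H.Comparison (aff k (MvPolynomial (Fin (d + 1)) k ⧸ I)) :=
      dim_to_closed hB fun A _ _ _ hA => hs h _ (ft_aff True) (by rw [topDim_aff]; exact hA)
    exact of_block hB (fun a b c' hc' T => to_tri hB h2 a b c' hc' T) T hm
  · exact (dim_tri hB d).mpr (fun a b T => h a b (d + 2) T (Or.inr (Or.inr le_rfl))) X hX hn

theorem block_three [PerfectField k] : H.Block 3 :=
  (dim_iff H 1).1.mp fun m X hX hs hn => fun i hi => H.curves X hX hs (by exact_mod_cast hn) i m hi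

/-- Parshin's conjecture and trilinear forms -/
theorem parshin_iff [PerfectField k] : ((∀ m, H.P m) ↔
    ∀ (a b c : ℕ) (T : Fin a → Fin b → Fin c → k), H.Comparison (hypS T)) ∧
    ((∀ m, H.P m) ↔ ∀ X : Sch k, FT True X → H.Comparison X) := by
  have h1 : (∀ m, H.P m) → ∀ (a b c : ℕ) (T : Fin a → Fin b → Fin c → k),
      H.Comparison (hypS T) := fun h a b c T =>
    (dim_iff H a).1.mp (fun m X hX hs _ => h m X hX hs) a b c T (Or.inl (by omega))
  have h2 : (∀ X : Sch k, FT True X → H.Comparison X) → ∀ m, H.P m := by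
    intro h m X hX hs i hi x
    apply (h X hX i m).1
    rw [H.pure X hX hs i m hi (H.obj i m X |>.r x), map_zero]
  exact ⟨⟨h1, fun h => h2 ((all_iff H).2 h)⟩, fun h => (all_iff H).2 (h1 h), h2⟩

end Pool.Agent.R904.PM
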